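import Pool.Agent.H56.ONE.Nvn
import Pool.Agent.H66.SP.XG_Main
import Pool.Agent.H56.END.Core
import Pool.Agent.H56.END.Loca

/-!
# THEOREM AC: the planar theorem for a minimal piece of a general post-critical set

`roba : ROBa` (H56/END/Loca): `P` need not be totally disconnected; only the critical points whose orbits meet `M` must be in `M`.
`robn : ROBn` (H56/END/Core).
-/

set_option autoImplicit false

open Filter Topology Metric Set MeasureTheory

namespace Pool.Agent.H56.ONE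

open Pool.Agent.H66.SP (PG FG)
open Pool.Agent.H66.DIM (Mn Tz Rg Clu)
open Pool.Agent.H64.XG (rec_in)

theorem roba : Pool.Agent.H56.END.ROBa := by
  intro f U J P Cr M E δ η r₀ X hh μ b0 h hX hM hMC hCP hin hRg hClu z hz hTz
  obtain ⟨c, hc, hcM, θ, θ₁, C, h0, h1, h2, hC, hall⟩ := nvn h hM hMC hRg hClu
  obtain ⟨ε, m, y, χ, g, hN, hy⟩ := Pool.Agent.H66.SP.nvs_of h hc h0 h1 h2 hC (hall z (hX.EJ hz) hTz)
  exact Pool.Agent.H66.SP.x_false h hX hM hCP hin hz hTz hc hcM hN hy

theorem robn : Pool.Agent.H56.END.ROBn := fun h hX hM hMC hCP _ hrec hRg hClu z hz hTz =>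
  roba (Pool.Agent.H66.SP.pg_ps h) (Pool.Agent.H66.SP.fg_ps h hX) hM hMC hCP (rec_in hM fun c hc ε hε => by
    obtain ⟨n, h1, h2⟩ := hrec c hc ε hε
    exact ⟨n, h1, h2⟩) hRg hClu z hz hTz

end Pool.Agent.H56.ONE
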